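import Pool.Agent.Helper16.CB.Defs

/-! Squares modulo primes above harmless primes (project CB, pieces A6 and SQ). -/

set_option autoImplicit false

namespace Pool.Agent.Helper10.CB

open NumberField

theorem dvd_half {m M J : ℕ} (hmM : m ∣ M) (h1 : 2 ^ J ∣ M) (h2 : ¬ 2 ^ J ∣ m) : m ∣ M / 2 := by
  obtain ⟨k, rfl⟩ := hmM
  rcases Nat.even_or_odd k with hk | hk
  · obtain ⟨l, rfl⟩ := hk
    refine ⟨l, ?_⟩
    have : m * (l + l) = 2 * (m * l) := by ring
    rw [this, Nat.mul_div_cancel_left _ (by norm_num)]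
  · exfalso
    apply h2
    have hc : Nat.Coprime (2 ^ J) k := by
      apply Nat.Coprime.pow_left
      exact (Nat.coprime_two_left).2 hk
    exact hc.dvd_of_dvd_mul_right h1

theorem card_sub_one_dvd {k k' : Type*} [Field k] [Fintype k] [Field k'] [Fintype k'] (f : k →+* k') :
    Fintype.card k - 1 ∣ Fintype.card k' - 1 := by
  letI := f.toAlgebra
  rw [Module.card_eq_pow_finrank (K := k) (V := k')]
  simpa using Nat.sub_dvd_pow_sub_pow (Fintype.card k) 1 (Module.finrank k k')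

/-- a square in a finite field -/
theorem isSquare_map {k k' : Type*} [Field k] [Fintype k] [Field k'] [Fintype k'] (f : k →+* k')
    {J : ℕ} (hchar : ringChar k' ≠ 2) (h1 : 2 ^ J ∣ Fintype.card k' - 1)
    (h2 : ¬ 2 ^ J ∣ Fintype.card k - 1) {x : k} (hx : x ≠ 0) : IsSquare (f x) := by
  have hfx : f x ≠ 0 := (map_ne_zero f).2 hx
  rw [FiniteField.isSquare_iff hchar hfx]
  have hodd := FiniteField.odd_card_of_char_ne_two hchar
  obtain ⟨t, ht⟩ := dvd_half (card_sub_one_dvd f) h1 h2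
  have h3 : Fintype.card k' / 2 = (Fintype.card k' - 1) / 2 := by
    omega
  rw [h3, ht, pow_mul, ← map_pow, FiniteField.pow_card_sub_one_eq_one x hx, map_one, one_pow]

theorem two_pow_dvd {k' : Type*} [Field k'] [Fintype k'] {J : ℕ} (hchar : ringChar k' ≠ 2) {z : k'}
    (hz : ∀ j, J = j + 1 → z ^ 2 ^ j = -1) : 2 ^ J ∣ Fintype.card k' - 1 := by
  cases J with
  | zero => simp
  | succ j =>
    have h1 := hz j rfl
    have h2 : ¬ z ^ 2 ^ j = 1 := by
      rw [h1]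
      exact Ring.neg_one_ne_one_of_char_ne_two hchar
    have h3 : z ^ 2 ^ (j + 1) = 1 := by
      rw [pow_succ, pow_mul, h1]
      norm_num
    haveI : Fact (Nat.Prime 2) := ⟨Nat.prime_two⟩
    rw [← orderOf_eq_prime_pow h2 h3]
    apply orderOf_dvd_of_pow_eq_one
    apply FiniteField.pow_card_sub_one_eq_one
    rintro rfl
    rw [zero_pow (by positivity)] at h1
    have : (1 : k') = 0 := by
      have := congrArg Neg.neg h1
      simpa using this.symm
    exact one_ne_zero this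

/-- A6.  `(N p - 1) ∣ (N q - 1) / 2`, and `N q ≡ 1` modulo `2 ^ J`. -/
theorem sq_res {K L : Type*} [Field K] [NumberField K] [Field L] [NumberField L] [Algebra K L]
    {J : ℕ} {ζ : L} (hζ : IsPrimitiveRoot ζ (2 ^ J)) {p : Ideal (𝓞 K)} (hp : p.IsPrime)
    (hp0 : p ≠ ⊥) (hodd : Odd (Ideal.absNorm p)) (hJ : ¬ Ideal.absNorm p ≡ 1 [MOD 2 ^ J])
    {q : Ideal (𝓞 L)} (hq : q.IsPrime) (hpq : p = q.comap (algebraMap (𝓞 K) (𝓞 L)))
    {x : 𝓞 K} (hx : x ∉ p) : ∃ γ : 𝓞 L, algebraMap (𝓞 K) (𝓞 L) x - γ ^ 2 ∈ q := by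
  classical
  have hq0 : q ≠ ⊥ := by
    rintro rfl
    apply hp0
    rw [hpq, ← RingHom.ker_eq_comap_bot]
    exact (RingHom.injective_iff_ker_eq_bot _).1
      (FaithfulSMul.algebraMap_injective (𝓞 K) (𝓞 L))
  haveI := hp.isMaximal hp0
  haveI := hq.isMaximal hq0
  letI : Field (𝓞 K ⧸ p) := Ideal.Quotient.field p
  letI : Field (𝓞 L ⧸ q) := Ideal.Quotient.field q
  haveI : Finite (𝓞 K ⧸ p) := Ideal.finiteQuotientOfFreeOfNeBot p hp0
  haveI : Finite (𝓞 L ⧸ q) := Ideal.finiteQuotientOfFreeOfNeBot q hq0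
  letI : Fintype (𝓞 K ⧸ p) := Fintype.ofFinite _
  letI : Fintype (𝓞 L ⧸ q) := Fintype.ofFinite _
  have hN : Ideal.absNorm p = Fintype.card (𝓞 K ⧸ p) := by
    rw [Ideal.absNorm_apply, Submodule.cardQuot_apply, Nat.card_eq_fintype_card]
  let f : 𝓞 K ⧸ p →+* 𝓞 L ⧸ q := Ideal.quotientMap q (algebraMap (𝓞 K) (𝓞 L)) (le_of_eq hpq)
  rw [hN] at hodd hJ
  have hchar : ringChar (𝓞 L ⧸ q) ≠ 2 := by
    intro h2
    have hd := card_sub_one_dvd f
    have he := FiniteField.even_card_of_char_two h2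
    have hpos : 0 < Fintype.card (𝓞 L ⧸ q) := Fintype.card_pos
    have hpos' : 0 < Fintype.card (𝓞 K ⧸ p) := Fintype.card_pos
    obtain ⟨t, ht⟩ := hd
    obtain ⟨s, hs⟩ := hodd
    have : Fintype.card (𝓞 L ⧸ q) - 1 = 2 * (s * t) := by
      rw [ht, hs]
      simp [mul_assoc]
    omega
  have hne : ¬ 2 ^ J ∣ Fintype.card (𝓞 K ⧸ p) - 1 := by
    intro h
    apply hJ
    exact ((Nat.modEq_iff_dvd' Fintype.card_pos).2 h).symm
  have hint : IsIntegral ℤ ζ := hζ.isIntegral (by positivity)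
  let z : 𝓞 L := ⟨ζ, hint⟩
  have hz : ∀ j, J = j + 1 → (Ideal.Quotient.mk q z) ^ 2 ^ j = -1 := by
    rintro j rfl
    have h1 : ζ ^ 2 ^ j = -1 := by
      have h2 : (ζ ^ 2 ^ j) ^ 2 = 1 := by
        rw [← pow_mul, ← pow_succ]
        exact hζ.pow_eq_one
      have h3 : ζ ^ 2 ^ j ≠ 1 := by
        apply hζ.pow_ne_one_of_pos_of_lt (by positivity)
        exact Nat.pow_lt_pow_right (by norm_num) (by omega)
      rcases sq_eq_one_iff.1 h2 with h | h
      · exact absurd h h3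
      · exact h
    have h4 : z ^ 2 ^ j = -1 := by
      apply RingOfIntegers.ext
      push_cast
      exact h1
    rw [← map_pow, h4, map_neg, map_one]
  have hdvd := two_pow_dvd hchar hz
  have hx' : Ideal.Quotient.mk p x ≠ 0 := by
    rw [Ne, Ideal.Quotient.eq_zero_iff_mem]
    exact hx
  obtain ⟨y, hy⟩ := isSquare_map f hchar hdvd hne hx'
  obtain ⟨γ, rfl⟩ := Ideal.Quotient.mk_surjective y
  refine ⟨γ, ?_⟩
  rw [← Ideal.Quotient.eq_zero_iff_mem, map_sub, map_pow, sub_eq_zero, pow_two, ← hy]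
  simp [f]

/-- Newton: from a square modulo `q` to a square modulo `q ^ n`. -/
theorem lift_sq {R : Type*} [CommRing R] {q : Ideal R} (hq : q.IsMaximal) (h2 : (2 : R) ∉ q)
    {c : R} (hc : c ∉ q) {γ : R} (hγ : c - γ ^ 2 ∈ q) (n : ℕ) : ∃ r : R, c - r ^ 2 ∈ q ^ (n + 1) := by
  induction n with
  | zero => exact ⟨γ, by simpa using hγ⟩
  | succ n ih =>
    obtain ⟨r, hr⟩ := ih
    have hrq : c - r ^ 2 ∈ q := Ideal.pow_le_self (Nat.succ_ne_zero n) hr
    have hrn : r ∉ q := by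
      intro h
      apply hc
      have : c = (c - r ^ 2) + r * r := by ring
      rw [this]
      exact q.add_mem hrq (q.mul_mem_left _ h)
    have h2r : 2 * r ∉ q := by
      intro h
      rcases hq.isPrime.mem_or_mem h with h | h
      · exact h2 h
      · exact hrn h
    obtain ⟨u, i, hi, hu⟩ := hq.exists_inv h2r
    refine ⟨r + u * (c - r ^ 2), ?_⟩
    have e : c - (r + u * (c - r ^ 2)) ^ 2 =
        i * (c - r ^ 2) - (u * (c - r ^ 2)) * (u * (c - r ^ 2)) := by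
      linear_combination (-(c - r ^ 2)) * hu
    rw [e]
    apply Ideal.sub_mem
    · rw [pow_succ' q (n + 1)]
      exact Ideal.mul_mem_mul hi hr
    · rw [pow_succ q (n + 1)]
      exact Ideal.mul_mem_mul (Ideal.mul_mem_left _ _ hr) (Ideal.mul_mem_left _ _ hrq)

/-- Chinese remainder theorem for squares. -/
theorem crt_sq {R : Type*} [CommRing R] [IsDedekindDomain R] {c : R} (I : Ideal R) :
    I ≠ 0 → (∀ q : Ideal R, q.IsPrime → I ≤ q → (2 : R) ∉ q ∧ c ∉ q ∧ ∃ γ, c - γ ^ 2 ∈ q) →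
      ∃ r, c - r ^ 2 ∈ I := by
  refine UniqueFactorizationMonoid.induction_on_coprime
    (P := fun I : Ideal R => I ≠ 0 →
      (∀ q : Ideal R, q.IsPrime → I ≤ q → (2 : R) ∉ q ∧ c ∉ q ∧ ∃ γ, c - γ ^ 2 ∈ q) →
      ∃ r, c - r ^ 2 ∈ I) I ?_ ?_ ?_ ?_
  · intro h
    exact absurd rfl h
  · intro x hx _ _
    refine ⟨0, ?_⟩
    rw [Ideal.isUnit_iff.1 hx]
    exact Submodule.mem_top
  · intro p i hp h0 h
    cases i with
    | zero => exact ⟨0, by simp⟩
    | succ n =>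
      have hpp : p.IsPrime := Ideal.isPrime_of_prime hp
      have hp0 : p ≠ ⊥ := hp.ne_zero
      obtain ⟨h2, hc, γ, hγ⟩ := h p hpp (Ideal.pow_le_self (Nat.succ_ne_zero n))
      exact lift_sq (hpp.isMaximal hp0) h2 hc hγ n
  · intro x y hxy ihx ihy h0 h
    have hx0 : x ≠ 0 := left_ne_zero_of_mul h0
    have hy0 : y ≠ 0 := right_ne_zero_of_mul h0
    obtain ⟨r, hr⟩ := ihx hx0 (fun q hq hle => h q hq (Ideal.mul_le_left.trans hle))
    obtain ⟨s, hs⟩ := ihy hy0 (fun q hq hle => h q hq (Ideal.mul_le_right.trans hle))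
    have hcop : x ⊔ y = ⊤ := by
      apply Ideal.isUnit_iff.1
      exact hxy (Ideal.dvd_iff_le.2 le_sup_left) (Ideal.dvd_iff_le.2 le_sup_right)
    have h1 : (1 : R) ∈ x ⊔ y := by
      rw [hcop]
      exact Submodule.mem_top
    obtain ⟨i, hi, j, hj, hij⟩ := Submodule.mem_sup.1 h1
    refine ⟨r * j + s * i, ?_⟩
    rw [Ideal.mul_eq_inf_of_isCoprime (Ideal.isCoprime_iff_sup_eq.2 hcop)]
    refine ⟨?_, ?_⟩
    · have e : c - (r * j + s * i) ^ 2 =
        (c - r ^ 2) + (r ^ 2 * (1 + j) - 2 * r * j * s - s ^ 2 * i) * i := by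
        have hj' : j = 1 - i := by linear_combination hij
        rw [hj']
        ring
      rw [e]
      exact x.add_mem hr (x.mul_mem_left _ hi)
    · have e : c - (r * j + s * i) ^ 2 =
        (c - s ^ 2) + (s ^ 2 * (1 + i) - 2 * s * i * r - r ^ 2 * j) * j := by
        have hi' : i = 1 - j := by linear_combination hij
        rw [hi']
        ring
      rw [e]
      exact y.add_mem hs (y.mul_mem_left _ hj)

end Pool.Agent.Helper10.CB
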